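import Pool.Agent.H62.Emu

set_option autoImplicit false

namespace Pool.Agent.Results.MP_c8ce56_lc.EmuIff

/-- emu functions for the `ω₁`-ballean -/
def Emu {G : Type} [Group G] (f : G → ℝ) : Prop :=
  ∀ F : Set G, F.Countable → ∃ B : Set G, B.Countable ∧
    ∃ C : ℝ, ∀ x ∉ B, ∀ g ∈ F, ∀ h ∈ F, f (g * x) - f (h * x) ≤ C

/-- the `ω₁`-ballean of `G` is emu-bounded -/
def EmuBounded (G : Type) [Group G] : Prop :=
  ∀ f : G → ℝ, Emu f → ∃ B : Set G, B.Countable ∧ ∃ C : ℝ, ∀ x ∉ B, |f x| ≤ C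

theorem result : EmuBounded (Equiv.Perm ℕ) ↔ Cardinal.continuum.{0} ≠ Cardinal.aleph 1 := by
  constructor
  · intro h hc
    obtain ⟨f, h1, h2⟩ := Pool.Agent.H62.Emu.ch (G := Equiv.Perm ℕ)
      (by rw [← hc]; simp [Cardinal.mk_perm_eq_two_power])
    obtain ⟨B, hB, C, h3⟩ := h (fun x => f x) fun F hF => by
      obtain ⟨B, hB, h3⟩ := h1 F hF
      exact ⟨B, hB, 0, fun x hx g hg k hk => by simp [h3 x hx g hg, h3 x hx k hk]⟩
    obtain ⟨n, hn⟩ := exists_nat_gt C
    obtain ⟨x, hx, h4⟩ := h2 B hB n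
    have := h3 x hx
    rw [h4, Nat.abs_cast] at this
    exact hn.not_ge this
  · intro hc f hf
    have : ∃ L : ℕ, ∀ g, {x | L < |f (g * x) - f x|}.Countable := by
      by_contra! h
      choose g hg using h
      obtain ⟨B, hB, C, h1⟩ := hf (insert 1 (Set.range g)) ((Set.countable_range g).insert 1)
      obtain ⟨n, hn⟩ := exists_nat_gt C
      refine hg n (hB.mono fun x hx => not_not.mp fun h2 => ?_)
      have a1 := h1 x h2 (g n) (by simp) 1 (by simp)
      have a2 := h1 x h2 1 (by simp) (g n) (by simp)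
      rw [one_mul] at a1 a2
      exact LT.lt.not_ge (show (n : ℝ) < |f (g n * x) - f x| from hx) (abs_le.mpr ⟨by linarith, by linarith⟩)
    obtain ⟨L, hL⟩ := this
    exact Pool.Agent.H62.Emu.notch (lt_of_le_of_ne Cardinal.aleph_one_le_continuum hc.symm) f L hL

end Pool.Agent.Results.MP_c8ce56_lc.EmuIff
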